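import Pool.Agent.Helper65.HCS.Goals
import Pool.Agent.Helper94.HC.LSW
import Pool.Agent.Helper81.Sus2.LSE

/-!
# Packet HCS-LSP: the basic functions are computed in linear space
-/

namespace Pool.Agent.Helper14.HCS

open Pool.Agent.Helper65.LinSpace Pool.Agent.Helper78.Mpc Pool.Agent.Helper28.Ram
open Pool.Agent.Helper65.HCS Finset
open Pool.Agent.Helper59.Ram (LS_CR CM_le_CR pow_ll_le)
open Pool.Agent.Helper28.Long (pow_le_CR ZL ZL_le)
open Pool.Agent.Helper65.RT (qT CT ls_qT ls_CT ls_ll)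
open Pool.Agent.Helper94.HC (ls_ZL)

variable {α : Type} [Ctx α]

theorem ls_sT {n T : α → ℕ} (hn : LS n) (hT : LS T) : LS (fun z => sT (n z) (T z)) := by
  unfold sT
  exact LS.min (LS.dig (LS.add hn (LS.const 2)) hT (LS.const 0))
    (LS.min (LS.sub (ls_qT hn) (LS.const 1)) (ls_ZL hn))

theorem ls_aT {n T : α → ℕ} (hn : LS n) (hT : LS T) : LS (fun z => aT (n z) (T z)) := by
  unfold aT
  exact LS.min (LS.dig (LS.add hn (LS.const 2)) hT (LS.const 1)) (ls_ZL hn)

theorem sT_le (n T : ℕ) : sT n T ≤ n :=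
  ((min_le_right _ _).trans (min_le_right _ _)).trans (ZL_le n)

theorem aT_le (n T : ℕ) : aT n T ≤ n :=
  (min_le_right _ _).trans (ZL_le n)

section

variable (c₀ : ℕ) {e x y T : α → ℕ}

theorem ls_fS (hx : LS x) (hT : LS T) {d u : α → ℕ} (hd : LS d) (hu : LS u) :
    LS (fun z => fnN (d z) (sT (Nat.log 2 (x z)) (T z)) (LW (Nat.log 2 (x z)))
      (2 ^ (2 * ll (Nat.log 2 (x z)))) (CR (x z)) (u z)) := by
  have hn : LS (fun z => Nat.log 2 (x z)) := LS.log2 hx
  refine LS.fnN hd (ls_sT hn hT) (LS.LW hn) (Pool.Agent.Helper94.HC.ls_beta hx) (LS_CR hx) hu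
    (LS_CR hx) (fun b => by positivity)
    (fun b => (beta_pow_le (x b)).trans (CM_le_CR (x b))) (fun b => ?_)
  refine pow_le_CR ?_
  have h6 := sT_le (Nat.log 2 (x b)) (T b)
  omega

theorem ls_step (he : LS e) (hx : LS x) (hT : LS T) {i j q v : α → ℕ} (hi : LS i)
    (hj : LS j) (hq : LS q) (hv : LS v) :
    LS (fun z => (prm c₀ (e z) (x z) (y z) (T z)).step (i z) (j z) (q z) (v z)) := by
  have hn : LS (fun z => Nat.log 2 (x z)) := LS.log2 hx
  have hu : LS (fun z => catN (sdN (bitsN (Nat.log 2 (x z))))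
      (catN (sdN (bitsN (i z))) (catN (sdN (bitsN (j z)))
        (catN (sdN (q z)) (v z))))) := by
    refine LS.catN (LS.sdN (LS.bitsN hn)) ?_
    fun_prop
  have heS : LS (fun z => (Nat.unpair (Nat.unpair (e z)).1).1) := by fun_prop
  have h1 := ls_fS hx hT heS hu
  exact LS.capN (ls_sT hn hT) (LS.ifz (LS.mul hq hv) (LS.const 0) h1)

theorem ls_out (he : LS e) (hx : LS x) (hy : LS y) (hT : LS T) {i q : α → ℕ} (hi : LS i)
    (hq : LS q) :
    LS (fun z => (prm c₀ (e z) (x z) (y z) (T z)).out (i z) (q z)) := by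
  have hn : LS (fun z => Nat.log 2 (x z)) := LS.log2 hx
  have hl : LS (fun z => letN (catN (x z) (y z)) (i z)) := LS.letN (LS.catN hx hy) hi
  have hu : LS (fun z => catN (sdN (bitsN (Nat.log 2 (x z))))
      (catN (sdN (bitsN (i z))) (q z))) :=
    LS.catN (LS.sdN (LS.bitsN hn)) (LS.catN (LS.sdN (LS.bitsN hi)) hq)
  have heO : LS (fun z => (Nat.unpair (Nat.unpair (e z)).1).2) := by fun_prop
  have h1 := ls_fS hx hT heO hu
  exact LS.capN (ls_sT hn hT) (LS.ifz hl (LS.ifz hq (LS.const 0) h1)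
    (LS.add (LS.const 2) (LS.mul (LS.const 2) hl)))

theorem lsp_dc (he : LS e) (hx : LS x) (hy : LS y) (hT : LS T) :
    Pool.Agent.Helper81.Sus2.LSP (fun z => (prm c₀ (e z) (x z) (y z) (T z)).dc)
      (fun z => CR (x z)) := by
  have hn : LS (fun z => Nat.log 2 (x z)) := LS.log2 hx
  have h0 : LS (fun _ : α => 0) := LS.const 0
  have heD : LS (fun z => (Nat.unpair (Nat.unpair (e z)).2).1) := by fun_prop
  have heX : LS (fun z => (Nat.unpair (Nat.unpair (e z)).2).2) := by fun_prop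
  have h4 : ∀ z, 2 ^ (0 + 2) ≤ CR (x z) := fun z => pow_le_CR (by omega)
  exact
    { eA := h0
      eN := h0
      eW := h0
      eK := h0
      eG := h0
      eR := h0
      eD := heD
      eX := heX
      ini := h0
      B0 := h0
      st := h0
      Λ := LS.LW hn
      β := Pool.Agent.Helper94.HC.ls_beta hx
      B := LS_CR hx
      x := hx
      y := hy
      S := h0
      Z := ls_aT hn hT
      u := h0
      V := h0
      z := h0
      hC := LS_CR hx
      bβ0 := fun z => by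
        show 0 < 2 ^ (2 * ll (Nat.log 2 (x z)))
        positivity
      bβ := fun z => (beta_pow_le (x z)).trans (CM_le_CR (x z))
      bS := h4
      bZ := fun z => by
        show 2 ^ (aT (Nat.log 2 (x z)) (T z) + 2) ≤ CR (x z)
        have h := aT_le (Nat.log 2 (x z)) (T z)
        exact pow_le_CR (by omega)
      bV := h4
      bu := fun z => pow_le_CR (t := 0) (by omega)
      bz := h4 }

theorem ls_lk (he : LS e) (hx : LS x) (hy : LS y) (hT : LS T) {D i : α → ℕ} (hD : LS D)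
    (hi : LS i) :
    LS (fun z => (prm c₀ (e z) (x z) (y z) (T z)).dc.lk (D z) (bitsN (i z))) :=
  Pool.Agent.Helper81.Sus2H56.ls_lk (lsp_dc c₀ he hx hy hT) hD (LS.bitsN hi)

theorem ls_pb (hx : LS x) (hT : LS T) :
    LS (fun z => 2 ^ (prm c₀ (e z) (x z) (y z) (T z)).b) := by
  refine LS.pow_of_le (f := fun _ => 2) (g := fun z => aT (Nat.log 2 (x z)) (T z))
    (LS.const 2) (ls_aT (LS.log2 hx) hT) (LS_CR hx) fun z => ?_
  have h := aT_le (Nat.log 2 (x z)) (T z)
  exact pow_le_CR (by omega)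

theorem ls_ct (hx : LS x) (hT : LS T) {c : α → ℕ} (hc : LS c) :
    LS (fun z => (prm c₀ (e z) (x z) (y z) (T z)).ct (c z)) :=
  LS.mod (LS.sub hc (LS.const 1)) (ls_pb c₀ hx hT)

theorem ls_cD (hx : LS x) (hT : LS T) {c : α → ℕ} (hc : LS c) :
    LS (fun z => (prm c₀ (e z) (x z) (y z) (T z)).cD (c z)) :=
  LS.div (LS.sub hc (LS.const 1)) (ls_pb c₀ hx hT)

theorem ls_cz (hx : LS x) (hT : LS T) :
    LS (fun z => (prm c₀ (e z) (x z) (y z) (T z)).cz) := by
  have h1 : LS (fun z => 2 ^ (prm c₀ (e z) (x z) (y z) (T z)).b *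
      ((2 ^ Nat.log 2 (x z)) ^ c₀ * 2) + 1) :=
    LS.add (LS.mul (ls_pb c₀ hx hT) (LS.mul (LS.pow_const (LS.pow_log hx) c₀) (LS.const 2)))
      (LS.const 1)
  refine h1.congr fun z => ?_
  show 2 ^ (prm c₀ (e z) (x z) (y z) (T z)).b * 2 ^ (c₀ * Nat.log 2 (x z) + 1) + 1 = _
  rw [pow_succ 2 (c₀ * Nat.log 2 (x z)), ← pow_mul, mul_comm c₀]

end

theorem lsp : LSP_stmt := by
  intro c₀ α _ e x y T he hx hy hT
  have hn : LS (fun z => Nat.log 2 (x z)) := LS.log2 hx
  refine ⟨fun hi hj hq hv => ls_step c₀ he hx hT hi hj hq hv,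
    fun hi hq => ls_out c₀ he hx hy hT hi hq,
    fun hD hi => ls_lk c₀ he hx hy hT hD hi,
    fun hc => ⟨ls_ct c₀ hx hT hc, ls_cD c₀ hx hT hc⟩, ?_,
    ls_sT hn hT, ?_, ls_qT hn, ls_pb c₀ hx hT, ls_cz c₀ hx hT⟩
  · intro c i hc hi
    exact LS.ifz (ls_ct c₀ hx hT hc) (LS.const 1)
      (LS.capN (ls_sT hn hT) (ls_lk c₀ he hx hy hT (ls_cD c₀ hx hT hc) hi))
  · exact LS.div (ls_qT hn) (LS.add (ls_sT hn hT) (LS.const 1))

end Pool.Agent.Helper14.HCS
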